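import Pool.Agent.Work.MP_b51559_nt.BG.Defs

set_option autoImplicit false

/-!
# Block TP (three primes in short intervals): definitions and interfaces

Plan: `FinT` follows from `St_SV` (part SV, helper99), `St_LAT` (part LAT, helper19), a proof of
`NUMm 2 k N0 Jm c h` for explicit data (part PW, helper97) and `St_TUP k D` (part TUP).
-/

namespace MPb51559.TP

open Finset Filter Topology MeasureTheory
open MPb51559.BG

/-- at least `m + 1` primes among the translates of the tuple, in (x, 2x), for all large x -/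
def ManyPrimes (m : ℕ) {k : ℕ} (h : Fin k → ℕ) : Prop := ∃ x0 : ℝ, ∀ x ≥ x0, ∃ n : ℕ, x < n ∧
  (∀ i, (n + h i : ℝ) < 2 * x) ∧ m + 1 ≤ (univ.filter (fun i : Fin k => (n + h i).Prime)).card

/-- the criterion for `m + 1` primes -/
def CritM (m : ℕ) {k : ℕ} (P : Sl) (F : (Fin k → ℝ) → ℝ) : Prop :=
  4 * (m : ℝ) * ∫ t, F t ^ 2 < ∑ i, Jm P F i

/-- PART SV: the sieve (the proof of `SIEVE` with `4 m` in place of `4`) -/
def St_SV : Prop := ∀ (m : ℕ), 1 ≤ m → ∀ (k : ℕ), 2 ≤ k → ∀ (h : Fin k → ℕ), Adm h →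
  ∀ (P : Sl), P.Ok → ∀ (F : (Fin k → ℝ) → ℝ), Tst k P.T F → CritM m P F → ManyPrimes m h

/-- coefficients of the `m`-th power of the power series with coefficients `c j ^ 2` -/
noncomputable def bco (c : ℕ → ℕ) (m n : ℕ) : ℕ :=
  PowerSeries.coeff n ((PowerSeries.mk fun j => c j ^ 2 : PowerSeries ℕ) ^ m)

/-- the marginal of the lattice function -/
def Hn (Jm : ℕ) (c h : ℕ → ℕ) (n : ℕ) : ℕ := ∑ j ∈ range (Jm + 1 - n), c j * h (n + j)

/-- the square sums of the lattice function -/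
def Qn (Jm : ℕ) (c h : ℕ → ℕ) (n : ℕ) : ℕ := ∑ j ∈ range (Jm + 1 - n), c j ^ 2 * h (n + j) ^ 2

/-- PART PW: the finite inequality. Lattice `1/N0`, `h n = 0` for `n > Jm`. -/
def NUMm (m k N0 Jm : ℕ) (c h : ℕ → ℕ) : Prop :=
  4 * m * N0 * ∑ n ∈ range (Jm + 1), bco c (k - 1) n * Qn Jm c h n <
    k * ∑ n ∈ range (2 * N0 - 2 * k + 2 - Jm), bco c (k - 1) n * Hn Jm c h n ^ 2

/-- PART LAT: the criterion from the finite inequality, with
`F t = ∏ c ⌊N0 t_i⌋ * h (∑ ⌊N0 t_i⌋)` and `T = (Jm + k) / N0` -/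
def St_LAT : Prop := ∀ (m k N0 Jm : ℕ) (c h : ℕ → ℕ), 2 ≤ k → (∀ n, Jm < n → h n = 0) →
  N0 < Jm + k → Jm + 2 * k ≤ 2 * N0 → NUMm m k N0 Jm c h →
  ∃ (P : Sl) (F : (Fin k → ℝ) → ℝ), P.Ok ∧ Tst k P.T F ∧ CritM m P F

/-- an admissible tuple of length `k` and diameter at most `D` -/
def St_TUP (k D : ℕ) : Prop := ∃ h : Fin k → ℕ, Adm h ∧ ∀ i, h i ≤ D

/-- the hand in: three primes within `D` in every interval `(x, 2x]`, `x` large -/
def Three (D : ℕ) : Prop := ∃ N : ℕ, ∀ x ≥ N, ∃ p q r : ℕ, p.Prime ∧ q.Prime ∧ r.Prime ∧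
  x < p ∧ p < q ∧ q < r ∧ r ≤ 2 * x ∧ r - p ≤ D

end MPb51559.TP
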