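import Pool.Agent.Work.MP_b51559_nt.TP.Defs

set_option autoImplicit false

/-!
# Block TP: from three primes in a tuple to three primes in a short interval
-/

namespace MPb51559.TP

open Finset Filter Topology MeasureTheory
open MPb51559.BG

theorem fin_order {D n x : ℕ} {a b c : ℕ} (hab : a ≠ b) (hac : a ≠ c) (hbc : b ≠ c)
    (ha : a ≤ D) (hb : b ≤ D) (hc : c ≤ D)
    (pa : (n + a).Prime) (pb : (n + b).Prime) (pc : (n + c).Prime) (hn : x < n)
    (xa : n + a ≤ 2 * x) (xb : n + b ≤ 2 * x) (xc : n + c ≤ 2 * x) :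
    ∃ p q r : ℕ, p.Prime ∧ q.Prime ∧ r.Prime ∧ x < p ∧ p < q ∧ q < r ∧ r ≤ 2 * x ∧ r - p ≤ D := by
  rcases lt_or_gt_of_ne hab with h1 | h1 <;> rcases lt_or_gt_of_ne hac with h2 | h2 <;>
    rcases lt_or_gt_of_ne hbc with h3 | h3
  · exact ⟨n + a, n + b, n + c, pa, pb, pc, by omega, by omega, by omega, xc, by omega⟩
  · exact ⟨n + a, n + c, n + b, pa, pc, pb, by omega, by omega, by omega, xb, by omega⟩
  · exact absurd h1 (by omega)
  · exact ⟨n + c, n + a, n + b, pc, pa, pb, by omega, by omega, by omega, xb, by omega⟩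
  · exact ⟨n + b, n + a, n + c, pb, pa, pc, by omega, by omega, by omega, xc, by omega⟩
  · exact absurd h1 (by omega)
  · exact ⟨n + b, n + c, n + a, pb, pc, pa, by omega, by omega, by omega, xa, by omega⟩
  · exact ⟨n + c, n + b, n + a, pc, pb, pa, by omega, by omega, by omega, xa, by omega⟩

theorem three_of_many {k D : ℕ} (h : Fin k → ℕ) (hinj : Function.Injective h)
    (hD : ∀ i, h i ≤ D) (hM : ManyPrimes 2 h) : Three D := by
  obtain ⟨x0, hx0⟩ := hM
  refine ⟨⌈x0⌉₊, fun x hx => ?_⟩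
  have hx' : x0 ≤ (x : ℝ) := le_trans (Nat.le_ceil x0) (by exact_mod_cast hx)
  obtain ⟨n, hn, hlt, hcard⟩ := hx0 x hx'
  have h3 : 2 < (univ.filter (fun i : Fin k => (n + h i).Prime)).card := by omega
  obtain ⟨a, ha, b, hb, c, hc, hab, hac, hbc⟩ := Finset.two_lt_card.1 h3
  rw [Finset.mem_filter] at ha hb hc
  have hle : ∀ i, n + h i ≤ 2 * x := by
    intro i
    have := hlt i
    have h5 : ((n + h i : ℕ) : ℝ) < ((2 * x : ℕ) : ℝ) := by
      push_cast
      exact this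
    exact le_of_lt (by exact_mod_cast h5)
  have hn' : x < n := by exact_mod_cast hn
  exact fin_order (fun e => hab (hinj e)) (fun e => hac (hinj e)) (fun e => hbc (hinj e))
    (hD a) (hD b) (hD c) ha.2 hb.2 hc.2 hn' (hle a) (hle b) (hle c)

/-- the final assembly -/
theorem fin_TP (hSV : St_SV) (hLAT : St_LAT) {k D N0 J0 : ℕ} {c h : ℕ → ℕ} (hk : 2 ≤ k)
    (hh : ∀ n, J0 < n → h n = 0) (h1 : N0 < J0 + k) (h2 : J0 + 2 * k ≤ 2 * N0)
    (hnum : NUMm 2 k N0 J0 c h) (htup : St_TUP k D) : Three D := by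
  obtain ⟨g, hA, hD⟩ := htup
  obtain ⟨P, F, hP, hF, hC⟩ := hLAT 2 k N0 J0 c h hk hh h1 h2 hnum
  exact three_of_many g hA.1 hD (hSV 2 (by norm_num) k hk g hA P hP F hF hC)

end MPb51559.TP
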