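import Pool.Agent.Work.MP_b51559_nt.LF.AP.All

set_option autoImplicit false

/-!
# Strings of `r + 1` consecutive primes in a residue class and in a short interval

`Str r q a W x` is the set of the indices `m` such that the consecutive primes `p_m, ..., p_(m+r)` all
lie in `(x, 2x)`, are congruent to `a` modulo `q` and span at most `W`.  `strings` gives at least
`c x / (log x) ^ k` such strings from the theorem on `k` linear forms.
-/

namespace MPb51559.TP

open Finset Filter Topology MeasureTheory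
open MPb51559.BG MPb51559.BG.LF
open scoped Classical

/-- indices of strings of `r + 1` consecutive primes -/
def Str (r q a W x : ℕ) : Set ℕ :=
  {m : ℕ | x < Nat.nth Nat.Prime m ∧ Nat.nth Nat.Prime (m + r) < 2 * x ∧
    Nat.nth Nat.Prime (m + r) ≤ Nat.nth Nat.Prime m + W ∧
    ∀ i ≤ r, Nat.nth Nat.Prime (m + i) ≡ a [MOD q]}

theorem str_finite (r q a W x : ℕ) : (Str r q a W x).Finite := by
  refine Set.Finite.subset (Set.finite_Iio (2 * x)) fun m hm => ?_
  have h1 : m + r ≤ Nat.nth Nat.Prime (m + r) :=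
    (Nat.nth_strictMono Nat.infinite_setOf_prime).le_apply
  have h2 : Nat.nth Nat.Prime (m + r) < 2 * x := hm.2.1
  exact lt_of_le_of_lt (le_trans (Nat.le_add_right m r) h1) h2

/-- a window with more than `r` primes -/
theorem window (s W r : ℕ) (T : Finset ℕ) (hT : ∀ t ∈ T, t ≤ W ∧ (s + t).Prime) (hr : r < T.card) :
    s ≤ Nat.nth Nat.Prime (Nat.count Nat.Prime s) ∧
      Nat.nth Nat.Prime (Nat.count Nat.Prime s + r) ≤ s + W := by
  refine ⟨Nat.le_nth_count Nat.infinite_setOf_prime s, ?_⟩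
  refine Nat.lt_succ_iff.1 (Nat.nth_lt_of_lt_count ?_)
  have e : Nat.count Nat.Prime (s + W).succ =
      Nat.count Nat.Prime s + Nat.count (fun k => (s + k).Prime) (W + 1) := by
    rw [show (s + W).succ = s + (W + 1) by omega, Nat.count_add]
  rw [e, Nat.count_eq_card_filter_range (fun k => (s + k).Prime) (W + 1)]
  have h1 : T.card ≤ ((range (W + 1)).filter (fun k => (s + k).Prime)).card := by
    refine Finset.card_le_card fun t ht => ?_
    rw [Finset.mem_filter, Finset.mem_range]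
    exact ⟨Nat.lt_succ_of_le (hT t ht).1, (hT t ht).2⟩
  omega

/-- the forms -/
theorem forms_adm {k D : ℕ} (g : Fin k → ℕ) (hg : Adm g) (hev : ∀ i, Even (g i)) (w a : ℕ)
    (hw : 0 < w) (ha : a.Coprime (2 * w)) :
    AdmZ (fun _ : Fin k => 2 * w) (fun i => (((a + 2 * w * D) + w * g i : ℕ) : ℤ)) := by
  refine ⟨fun _ => by omega, ?_, ?_⟩
  · intro i j _ h
    have h1 : a + 2 * w * D + w * g i = a + 2 * w * D + w * g j := by exact_mod_cast h
    exact hg.1 (Nat.eq_of_mul_eq_mul_left hw (by omega))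
  · intro p hp
    by_cases hpw : p ∣ 2 * w
    · refine ⟨0, fun i => ?_⟩
      obtain ⟨s, hs⟩ := hev i
      intro h
      rw [mul_zero, zero_add] at h
      have h1 : p ∣ a + 2 * w * D + w * g i := by exact_mod_cast h
      rw [hs, show a + 2 * w * D + w * (s + s) = a + 2 * w * (D + s) by ring] at h1
      have h2 : p ∣ a := (Nat.dvd_add_left (hpw.mul_right _)).1 h1
      have h3 : p ∣ Nat.gcd a (2 * w) := Nat.dvd_gcd h2 hpw
      rw [Nat.Coprime] at ha
      rw [ha] at h3
      exact hp.one_lt.ne' (Nat.dvd_one.1 h3)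
    · obtain ⟨v, hv⟩ := hg.2 p hp
      have hc : IsCoprime ((2 * w : ℕ) : ℤ) (p : ℤ) := by
        rw [Nat.isCoprime_iff_coprime]
        exact ((Nat.Prime.coprime_iff_not_dvd hp).2 hpw).symm
      obtain ⟨u, z, huz⟩ := hc
      -- 2 w (u (w v - a - 2 w D)) = w v - a - 2 w D modulo p
      refine ⟨u * (w * v - (a + 2 * w * D)), fun i h => ?_⟩
      have e : ((2 * w : ℕ) : ℤ) * (u * (w * v - (a + 2 * w * D))) +
          (((a + 2 * w * D) + w * g i : ℕ) : ℤ) =
          w * (v + g i) - p * (z * (w * v - (a + 2 * w * D))) := by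
        have h5 : ((2 * w : ℕ) : ℤ) * u = 1 - p * z := by linarith
        calc ((2 * w : ℕ) : ℤ) * (u * (w * v - (a + 2 * w * D))) +
            (((a + 2 * w * D) + w * g i : ℕ) : ℤ)
            = (((2 * w : ℕ) : ℤ) * u) * (w * v - (a + 2 * w * D)) +
            (((a + 2 * w * D) + w * g i : ℕ) : ℤ) := by ring
          _ = w * (v + g i) - p * (z * (w * v - (a + 2 * w * D))) := by
            rw [h5]
            push_cast
            ring
      rw [e] at h
      have h6 : (p : ℤ) ∣ w * (v + g i) := by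
        have := dvd_add h (dvd_mul_right (p : ℤ) (z * (w * v - (a + 2 * w * D))))
        simpa using this
      have h7 : p ∣ w * (v + g i) := by exact_mod_cast h6
      rcases hp.dvd_mul.1 h7 with h8 | h8
      · exact hpw (h8.mul_left 2)
      · exact hv i h8

/-- strings of `r + 1` consecutive primes, from the theorem on `k` linear forms -/
theorem strings {k r D : ℕ} (hF : FCount k r) (g : Fin k → ℕ) (hg : Adm g)
    (hev : ∀ i, Even (g i)) (hD : ∀ i, g i ≤ D) (w a : ℕ) (hw : 0 < w) (ha : a.Coprime (2 * w)) :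
    ∃ c : ℝ, 0 < c ∧ ∃ N : ℕ, ∀ x : ℕ, N ≤ x →
      c * x / Real.log x ^ k ≤ ((Str r (2 * w) a (w * D) x).ncard : ℝ) := by
  -- the further forms
  obtain ⟨M, hM⟩ : ∃ M : ℕ, M = D + 1 := ⟨_, rfl⟩
  obtain ⟨a', ha'⟩ : ∃ a' : ℕ, a' = a + 2 * w * M := ⟨_, rfl⟩
  have hWa : w * D < a' := by
    rw [ha', hM]
    nlinarith
  have hA : AdmZ (fun _ : Fin k => 2 * w) (fun i => ((a' + w * g i : ℕ) : ℤ)) := by
    rw [ha']
    exact forms_adm g hg hev w a hw ha
  obtain ⟨G, hG⟩ : ∃ G : Finset (ℤ × ℤ), G = ((range (w * D + 1)).filter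
    (fun t => ∀ j, t ≠ w * g j)).image (fun t : ℕ => (((2 * w : ℕ) : ℤ), ((a' + t : ℕ) : ℤ))) :=
    ⟨_, rfl⟩
  have hGc : ∀ e ∈ G, 0 < e.1 ∧ ∀ i : Fin k, e.1 * ((a' + w * g i : ℕ) : ℤ) ≠
      ((2 * w : ℕ) : ℤ) * e.2 := by
    intro e he
    rw [hG, Finset.mem_image] at he
    obtain ⟨t, ht, rfl⟩ := he
    rw [Finset.mem_filter] at ht
    refine ⟨Int.natCast_pos.2 (by omega : 0 < 2 * w), fun i h => ?_⟩
    have h2w : ((2 * w : ℕ) : ℤ) ≠ 0 := by exact_mod_cast (by omega : 2 * w ≠ 0)
    have h1 : ((a' + w * g i : ℕ) : ℤ) = ((a' + t : ℕ) : ℤ) := mul_left_cancel₀ h2w h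
    have h2 : a' + w * g i = a' + t := by exact_mod_cast h1
    exact ht.2 i (by omega)
  obtain ⟨c, hc, N, hN⟩ := fcount_comp hF _ _ hA G hGc
  refine ⟨c / (4 * w * (D + 1)), by positivity, 2 * w * (N + 3) + a' + 4 * w * a' + 8 * w, fun x hx => ?_⟩
  -- the scale
  obtain ⟨y, hy⟩ : ∃ y : ℕ, y = (x - a') / (2 * w) := ⟨_, rfl⟩
  have h2w : 0 < 2 * w := by omega
  have hxa : a' ≤ x := by
    have : 0 ≤ 2 * w * (N + 3) + 4 * w * a' + 8 * w := Nat.zero_le _
    omega
  have hy1 : 2 * w * y ≤ x - a' := by rw [hy]; exact Nat.mul_div_le _ _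
  have hy2 : x - a' < 2 * w * (y + 1) := by
    rw [hy]
    exact Nat.lt_mul_div_succ _ h2w
  have hNy : N + 3 ≤ y := by
    rw [hy, Nat.le_div_iff_mul_le h2w]
    have e1 : (N + 3) * (2 * w) = 2 * w * (N + 3) := by ring
    rw [e1]
    have : 0 ≤ 4 * w * a' + 8 * w := Nat.zero_le _
    omega
  have hyx : y ≤ x := by
    have : y ≤ 2 * w * y := Nat.le_mul_of_pos_left _ h2w
    omega
  have hy4 : x ≤ 4 * w * y := by
    -- x < 2 w (y + 1) + a'
    have h1 : x < 2 * w * (y + 1) + a' := by omega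
    have h2 : 2 * w * (2 + 2 * a') ≤ 2 * w * y + 2 * w := by
      have h3 : 2 * w * (2 + 2 * a') + a' + 2 * w ≤ x := by
        have e : 2 * w * (2 + 2 * a') = 4 * w * a' + 4 * w := by ring
        have e2 : 2 * w * (N + 3) = 2 * w * N + 6 * w := by ring
        omega
      have h4 : 2 * w * (y + 1) = 2 * w * y + 2 * w := by ring
      omega
    have h5 : a' ≤ 2 * w * a' := Nat.le_mul_of_pos_left _ h2w
    have e : 2 * w * (2 + 2 * a') = 4 * w + 2 * (2 * w * a') := by ring
    have e2 : 2 * w * (y + 1) = 2 * w * y + 2 * w := by ring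
    have e3 : 4 * w * y = 2 * (2 * w * y) := by ring
    omega
  have hcount := hN y (by omega)
  -- the map to the index of the first prime
  obtain ⟨S, hS⟩ : ∃ S : Finset ℕ, S = (Finset.Ioc y (2 * y)).filter (fun n : ℕ =>
        Evt r ((y : ℝ) ^ c) (fun i => ((2 * w : ℕ) : ℤ) * n + ((a' + w * g i : ℕ) : ℤ)) ∧
        ∀ e ∈ G, ¬ Prime (e.1 * n + e.2)) := ⟨_, rfl⟩
  rw [← hS] at hcount
  have key : ∀ n ∈ S, (Nat.count Nat.Prime (2 * w * n + a') ∈ Str r (2 * w) a (w * D) x) ∧
      2 * w * n + a' ≤ Nat.nth Nat.Prime (Nat.count Nat.Prime (2 * w * n + a')) ∧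
      Nat.nth Nat.Prime (Nat.count Nat.Prime (2 * w * n + a')) ≤ 2 * w * n + a' + w * D := by
    intro n hn
    rw [hS, Finset.mem_filter, Finset.mem_Ioc] at hn
    obtain ⟨⟨hn1, hn2⟩, ⟨_, I, hI1, hI2, hI3⟩, hn4⟩ := hn
    obtain ⟨s, hs⟩ : ∃ s : ℕ, s = 2 * w * n + a' := ⟨_, rfl⟩
    have hval : ∀ i : Fin k, ((2 * w : ℕ) : ℤ) * n + ((a' + w * g i : ℕ) : ℤ) =
        ((s + w * g i : ℕ) : ℤ) := by
      intro i
      rw [hs]
      push_cast
      ring
    have hT1 : ∀ t ∈ I.image (fun i => w * g i), t ≤ w * D ∧ (s + t).Prime := by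
      intro t ht
      rw [Finset.mem_image] at ht
      obtain ⟨i, hi, rfl⟩ := ht
      refine ⟨Nat.mul_le_mul_left w (hD i), ?_⟩
      obtain ⟨p, hp, hpe⟩ := hI2 i hi
      have hpe : ((2 * w : ℕ) : ℤ) * n + ((a' + w * g i : ℕ) : ℤ) = p := hpe
      rw [hval i] at hpe
      have : s + w * g i = p := by exact_mod_cast hpe
      rw [this]
      exact hp
    have hT2 : r < (I.image (fun i => w * g i)).card := by
      rw [Finset.card_image_of_injective]
      · exact hI1
      · intro i j hij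
        exact hg.1 (Nat.eq_of_mul_eq_mul_left hw hij)
    obtain ⟨hw1, hw2⟩ := window s (w * D) r _ hT1 hT2
    have hmono : StrictMono (Nat.nth Nat.Prime) := Nat.nth_strictMono Nat.infinite_setOf_prime
    have hle : ∀ i ≤ r, s ≤ Nat.nth Nat.Prime (Nat.count Nat.Prime s + i) ∧
        Nat.nth Nat.Prime (Nat.count Nat.Prime s + i) ≤ s + w * D := by
      intro i hi
      constructor
      · exact hw1.trans (hmono.monotone (Nat.le_add_right _ _))
      · exact (hmono.monotone (by omega)).trans hw2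
    rw [← hs]
    refine ⟨⟨?_, ?_, ?_, ?_⟩, hw1, ?_⟩
    · refine lt_of_lt_of_le ?_ hw1
      have h1 : 2 * w * (y + 1) ≤ 2 * w * n := Nat.mul_le_mul_left _ hn1
      omega
    · refine lt_of_le_of_lt hw2 ?_
      have h1 : 2 * w * n ≤ 2 * w * (2 * y) := Nat.mul_le_mul_left _ hn2
      have h2 : 2 * w * (2 * y) = 2 * (2 * w * y) := by ring
      omega
    · exact hw2.trans (Nat.add_le_add_right hw1 _)
    · intro i hi
      obtain ⟨h1, h2⟩ := hle i hi
      have hpr : (Nat.nth Nat.Prime (Nat.count Nat.Prime s + i)).Prime := Nat.prime_nth_prime _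
      obtain ⟨t, ht⟩ : ∃ t, Nat.nth Nat.Prime (Nat.count Nat.Prime s + i) = s + t :=
        ⟨_, (Nat.add_sub_cancel' h1).symm⟩
      have htW : t ≤ w * D := by omega
      rw [ht] at hpr ⊢
      by_cases hex : ∃ j, t = w * g j
      · obtain ⟨j, rfl⟩ := hex
        obtain ⟨u, hu⟩ := hev j
        rw [hs, ha', hu, show 2 * w * n + (a + 2 * w * M) + w * (u + u) =
          a + 2 * w * (n + M + u) by ring]
        unfold Nat.ModEq
        rw [Nat.add_mul_mod_self_left]
      · exfalso
        push Not at hex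
        refine hn4 (((2 * w : ℕ) : ℤ), ((a' + t : ℕ) : ℤ)) ?_ ?_
        · rw [hG, Finset.mem_image]
          exact ⟨t, Finset.mem_filter.2 ⟨Finset.mem_range.2 (by omega), hex⟩, rfl⟩
        · have e : ((2 * w : ℕ) : ℤ) * (n : ℤ) + ((a' + t : ℕ) : ℤ) = ((s + t : ℕ) : ℤ) := by
            rw [hs]
            push_cast
            ring
          rw [e]
          exact Nat.prime_iff_prime_int.1 hpr
    · exact (hle 0 (Nat.zero_le _)).2
  have hcard : S.card ≤ (D + 1) * (S.image (fun n => Nat.count Nat.Prime (2 * w * n + a'))).card := by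
    refine Finset.card_le_mul_card_image S (D + 1) fun m _ => ?_
    by_cases hne : (S.filter (fun n => Nat.count Nat.Prime (2 * w * n + a') = m)).Nonempty
    · obtain ⟨n0, hn0, hmin⟩ := Finset.exists_min_image _ (fun n => n) hne
      rw [Finset.mem_filter] at hn0
      have hsub : S.filter (fun n => Nat.count Nat.Prime (2 * w * n + a') = m) ⊆
          Finset.Icc n0 (n0 + D) := by
        intro n hn
        have h1 := hmin n hn
        rw [Finset.mem_filter] at hn
        rw [Finset.mem_Icc]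
        refine ⟨h1, ?_⟩
        by_contra hc2
        have h2 := (key n hn.1).2.1
        have h3 := (key n0 hn0.1).2.2
        rw [hn.2] at h2
        rw [hn0.2] at h3
        have h4 : 2 * w * (n0 + D + 1) ≤ 2 * w * n := Nat.mul_le_mul_left _ (by omega)
        have h5 : 2 * w * (n0 + D + 1) = 2 * w * n0 + 2 * (w * D) + 2 * w := by ring
        omega
      refine (Finset.card_le_card hsub).trans ?_
      rw [Nat.card_Icc]
      omega
    · rw [Finset.not_nonempty_iff_eq_empty] at hne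
      rw [hne, Finset.card_empty]
      exact Nat.zero_le _
  have hcard2 : (S.image (fun n => Nat.count Nat.Prime (2 * w * n + a'))).card ≤
      (Str r (2 * w) a (w * D) x).ncard := by
    rw [← Set.ncard_coe_finset]
    refine Set.ncard_le_ncard ?_ (str_finite _ _ _ _ _)
    intro m hm
    rw [Finset.mem_coe, Finset.mem_image] at hm
    obtain ⟨n, hn, rfl⟩ := hm
    exact (key n hn).1
  -- the numbers
  have hy3 : (3 : ℝ) ≤ y := by exact_mod_cast (by omega : 3 ≤ y)
  have hlogy : 0 < Real.log y := Real.log_pos (by linarith)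
  have hlog : Real.log y ≤ Real.log x :=
    Real.log_le_log (by linarith) (by exact_mod_cast hyx)
  have hx4 : (x : ℝ) ≤ 4 * w * y := by exact_mod_cast hy4
  have hw' : (0 : ℝ) < w := by exact_mod_cast hw
  have hD1 : (0 : ℝ) < (D : ℝ) + 1 := by positivity
  have h1 : c * x / (4 * w) / Real.log x ^ k ≤ c * y / Real.log y ^ k := by
    have h2 : c * x / (4 * w) ≤ c * y := by
      rw [div_le_iff₀ (by positivity)]
      nlinarith
    calc c * x / (4 * w) / Real.log x ^ k ≤ c * y / Real.log x ^ k :=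
          div_le_div_of_nonneg_right h2 (by positivity)
      _ ≤ c * y / Real.log y ^ k := by
          refine div_le_div_of_nonneg_left (by positivity) (by positivity) ?_
          exact pow_le_pow_left₀ hlogy.le hlog k
  have h3 : ((S.card : ℕ) : ℝ) ≤ (D + 1) * ((Str r (2 * w) a (w * D) x).ncard : ℝ) := by
    have h4 : S.card ≤ (D + 1) * (Str r (2 * w) a (w * D) x).ncard :=
      hcard.trans (Nat.mul_le_mul_left _ hcard2)
    exact_mod_cast h4
  have h5 : c / (4 * w * (D + 1)) * x / Real.log x ^ k =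
      c * x / (4 * w) / Real.log x ^ k / (D + 1) := by
    field_simp
  rw [h5, div_le_iff₀ hD1]
  calc c * x / (4 * w) / Real.log x ^ k ≤ c * y / Real.log y ^ k := h1
    _ ≤ S.card := hcount
    _ ≤ (D + 1) * ((Str r (2 * w) a (w * D) x).ncard : ℝ) := h3
    _ = _ := mul_comm _ _

end MPb51559.TP
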