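import Pool.Agent.Work.MP_b51559_nt.TP.Defs
import Pool.Agent.Work.MP_b51559_nt.BG.TP.Lat

set_option autoImplicit false

/-!
# Block TP, part LAT: from the cell machinery of BG/D
-/

namespace MPb51559.TP

open Finset Filter Topology MeasureTheory
open MPb51559.BG

theorem bN_eq (J : ℕ) (c : ℕ → ℕ) (κ n : ℕ) (hn : n ≤ J) : BG.TP.bN J c κ n = bco c κ n := by
  have h1 : (∑ j ∈ range (J + 1), Polynomial.C (c j ^ 2) * Polynomial.X ^ j : Polynomial ℕ) =
      PowerSeries.trunc (J + 1) (PowerSeries.mk fun j => c j ^ 2 : PowerSeries ℕ) := by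
    ext i
    rw [Polynomial.finsetSum_coeff]
    simp only [Polynomial.coeff_C_mul_X_pow, PowerSeries.coeff_trunc, PowerSeries.coeff_mk]
    rw [Finset.sum_ite_eq]
    simp [mem_range]
  have h2 : ∀ (Q : Polynomial ℕ), Q.coeff n =
      (PowerSeries.trunc (J + 1) (Q : PowerSeries ℕ)).coeff n := by
    intro Q
    rw [PowerSeries.coeff_trunc, if_pos (Nat.lt_succ_of_le hn), Polynomial.coeff_coe]
  unfold BG.TP.bN bco
  rw [h1, h2, Polynomial.coe_pow, PowerSeries.trunc_trunc_pow, PowerSeries.coeff_trunc,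
    if_pos (Nat.lt_succ_of_le hn)]

theorem prf_LATb : St_LAT := by
  intro m k N0 J c h hk _ hN1 hN2 hnum
  obtain ⟨κ, rfl⟩ : ∃ κ, k = κ + 1 := ⟨k - 1, by omega⟩
  have hH0 : ∀ N, J + 1 ≤ N → Hn J c h N = 0 := by
    intro N hN
    unfold Hn
    rw [Nat.sub_eq_zero_of_le hN]
    simp
  refine BG.TP.lat_crit m κ N0 J (2 * N0 + 1 - 2 * (κ + 1) - J) c h (by omega) hN1 (by omega) ?_
  unfold NUMm at hnum
  have e0 : κ + 1 - 1 = κ := rfl
  rw [e0] at hnum
  have e1 : ∑ n ∈ range (J + 1), BG.TP.bN J c κ n * BG.TP.QN J c h n =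
      ∑ n ∈ range (J + 1), bco c κ n * Qn J c h n := by
    refine Finset.sum_congr rfl fun n hn => ?_
    rw [bN_eq J c κ n (Nat.lt_succ_iff.1 (mem_range.1 hn))]
    rfl
  have e2 : ∑ n ∈ range (2 * N0 + 1 - 2 * (κ + 1) - J + 1),
      BG.TP.bN J c κ n * BG.TP.HN J c h n ^ 2 =
      ∑ n ∈ range (2 * N0 - 2 * (κ + 1) + 2 - J), bco c κ n * Hn J c h n ^ 2 := by
    have e3 : 2 * N0 + 1 - 2 * (κ + 1) - J + 1 = 2 * N0 - 2 * (κ + 1) + 2 - J := by omega
    rw [e3]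
    refine Finset.sum_congr rfl fun n _ => ?_
    have e4 : BG.TP.HN J c h n = Hn J c h n := rfl
    rw [e4]
    by_cases hn : n ≤ J
    · rw [bN_eq J c κ n hn]
    · rw [hH0 n (by omega)]
      simp
  rw [e1, e2]
  exact hnum

end MPb51559.TP
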