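import Pool.Agent.Work.MP_b51559_nt.TP.Fin3
import Pool.Agent.Work.MP_b51559_nt.TP.LatB
import Pool.Agent.Work.MP_b51559_nt.BG.MulC

set_option autoImplicit false

/-!
# Three (two) consecutive primes in a residue class: the final forms

`three_fin`: from the integer inequality `NUMm 2 k N0 J0 c h` and an even admissible `k`-tuple of
diameter `2 * D`.  `two_fin`: the case of two primes and 49 forms, without hypotheses.
-/

namespace MPb51559.TP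

open Finset Filter Topology MeasureTheory
open MPb51559.BG MPb51559.BG.LF
open scoped Classical

theorem numr_of {m k N0 J0 : ℕ} {c h : ℕ → ℕ} (hk : 2 ≤ k) (hh : ∀ n, J0 < n → h n = 0)
    (h1 : N0 < J0 + k) (h2 : J0 + 2 * k ≤ 2 * N0) (hnum : NUMm m k N0 J0 c h) : NUMr k m := by
  obtain ⟨P, F, hP, hF, hC⟩ := prf_LATb m k N0 J0 c h hk hh h1 h2 hnum
  exact ⟨P, F, hP, hF, hC⟩

/-- strings of `r + 1` consecutive primes in a residue class, from `FCount` -/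
theorem strings_fin {k r D : ℕ} (hF : FCount k r) (g : Fin k → ℕ) (hg : Adm g)
    (hev : ∀ i, Even (g i)) (hD : ∀ i, g i ≤ 2 * D) (q a : ℕ) (hq : 0 < q) (hqe : Even q)
    (ha : a.Coprime q) : ∃ c : ℝ, 0 < c ∧ ∃ N : ℕ, ∀ x : ℕ, N ≤ x →
    c * x / Real.log x ^ k ≤
      (Set.ncard {m : ℕ | x < Nat.nth Nat.Prime m ∧ Nat.nth Nat.Prime (m + r) < 2 * x ∧
        Nat.nth Nat.Prime (m + r) ≤ Nat.nth Nat.Prime m + D * q ∧
        ∀ i ≤ r, Nat.nth Nat.Prime (m + i) ≡ a [MOD q]} : ℝ) := by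
  obtain ⟨w, rfl⟩ := hqe
  have hw : 0 < w := by omega
  rw [← two_mul] at ha
  obtain ⟨c, hc, N, hN⟩ := strings hF g hg hev hD w a hw ha
  refine ⟨c, hc, N, fun x hx => ?_⟩
  have e : {m : ℕ | x < Nat.nth Nat.Prime m ∧ Nat.nth Nat.Prime (m + r) < 2 * x ∧
        Nat.nth Nat.Prime (m + r) ≤ Nat.nth Nat.Prime m + D * (w + w) ∧
        ∀ i ≤ r, Nat.nth Nat.Prime (m + i) ≡ a [MOD (w + w)]} =
      Str r (2 * w) a (w * (2 * D)) x := by
    rw [show D * (w + w) = w * (2 * D) by ring, show w + w = 2 * w by ring]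
    rfl
  rw [e]
  exact hN x hx

/-- three consecutive primes -/
theorem three_fin {k D N0 J0 : ℕ} {c h : ℕ → ℕ} (hk : 2 ≤ k) (hh : ∀ n, J0 < n → h n = 0)
    (h1 : N0 < J0 + k) (h2 : J0 + 2 * k ≤ 2 * N0) (hnum : NUMm 2 k N0 J0 c h)
    (g : Fin k → ℕ) (hg : Adm g) (hev : ∀ i, Even (g i)) (hD : ∀ i, g i ≤ 2 * D)
    (q a : ℕ) (hq : 0 < q) (hqe : Even q) (ha : a.Coprime q) :
    ∃ c : ℝ, 0 < c ∧ ∃ N : ℕ, ∀ x : ℕ, N ≤ x → c * x / Real.log x ^ k ≤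
      (Set.ncard {m : ℕ | x < Nat.nth Nat.Prime m ∧ Nat.nth Nat.Prime (m + 2) < 2 * x ∧
        Nat.nth Nat.Prime (m + 2) ≤ Nat.nth Nat.Prime m + D * q ∧
        ∀ i ≤ 2, Nat.nth Nat.Prime (m + i) ≡ a [MOD q]} : ℝ) :=
  strings_fin (sieveR k 2 hk two_pos (numr_of hk hh h1 h2 hnum)) g hg hev hD q a hq hqe ha

theorem t49_adm : Adm _root_.BG.t49 := by
  have h := adm_scale 1 one_pos
  have e : (fun i => 1 * _root_.BG.t49 i) = _root_.BG.t49 := by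
    funext i
    exact one_mul _
  rw [e] at h
  exact h

/-- two consecutive primes -/
theorem two_fin (q a : ℕ) (hq : 0 < q) (hqe : Even q) (ha : a.Coprime q) :
    ∃ c : ℝ, 0 < c ∧ ∃ N : ℕ, ∀ x : ℕ, N ≤ x → c * x / Real.log x ^ 49 ≤
      (Set.ncard {m : ℕ | x < Nat.nth Nat.Prime m ∧ Nat.nth Nat.Prime (m + 1) < 2 * x ∧
        Nat.nth Nat.Prime (m + 1) ≤ Nat.nth Nat.Prime m + 120 * q ∧
        ∀ i ≤ 1, Nat.nth Nat.Prime (m + i) ≡ a [MOD q]} : ℝ) := by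
  refine strings_fin fcount49 _ t49_adm (fun i => ?_) (fun i => ?_) q a hq hqe ha
  · obtain ⟨s, hs⟩ := t49_even i
    exact ⟨s, by rw [hs]; ring⟩
  · exact _root_.BG.t49_le i

end MPb51559.TP
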