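import Pool.Agent.Work.MP_b51559_nt.TP.Fin4

set_option autoImplicit false

/-!
# Two and three consecutive primes in a residue class: the plain forms (without `Nat.nth`)
-/

namespace MPb51559.TP

open Finset Filter Topology MeasureTheory
open MPb51559.BG MPb51559.BG.LF
open scoped Classical

/-- passage from indices to primes -/
theorem ncard_nth {A : Set ℕ} {B : Set ℕ} (hB : B.Finite) (h : ∀ m ∈ A, Nat.nth Nat.Prime m ∈ B) :
    A.ncard ≤ B.ncard :=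
  Set.ncard_le_ncard_of_injOn (Nat.nth Nat.Prime) h
    (fun _ _ _ _ e => (Nat.nth_strictMono Nat.infinite_setOf_prime).injective e) hB

/-- a prime between consecutive primes -/
theorem between {m r j : ℕ} (hr : r.Prime) (h1 : Nat.nth Nat.Prime m < r)
    (h2 : r < Nat.nth Nat.Prime (m + j)) :
    ∃ i, 0 < i ∧ i < j ∧ r = Nat.nth Nat.Prime (m + i) := by
  have hmono : StrictMono (Nat.nth Nat.Prime) := Nat.nth_strictMono Nat.infinite_setOf_prime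
  have e : Nat.nth Nat.Prime (Nat.count Nat.Prime r) = r := Nat.nth_count hr
  rw [← e] at h1 h2
  have h3 := hmono.lt_iff_lt.1 h1
  have h4 := hmono.lt_iff_lt.1 h2
  refine ⟨Nat.count Nat.Prime r - m, by omega, by omega, ?_⟩
  rw [show m + (Nat.count Nat.Prime r - m) = Nat.count Nat.Prime r by omega, e]

/-- two consecutive primes, plain form -/
theorem two_plain (q a : ℕ) (hq : 0 < q) (hqe : Even q) (ha : a.Coprime q) :
    ∃ c : ℝ, 0 < c ∧ ∃ N : ℕ, ∀ x : ℕ, N ≤ x → c * x / Real.log x ^ 49 ≤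
      (Set.ncard {p : ℕ | ∃ p' : ℕ, p.Prime ∧ p'.Prime ∧ p < p' ∧ (∀ r, p < r → r < p' → ¬ r.Prime) ∧
        x < p ∧ p' < 2 * x ∧ p' ≤ p + 120 * q ∧ p ≡ a [MOD q] ∧ p' ≡ a [MOD q]} : ℝ) := by
  obtain ⟨c, hc, N, hN⟩ := two_fin q a hq hqe ha
  refine ⟨c, hc, N, fun x hx => (hN x hx).trans (Nat.cast_le.2 (ncard_nth ?_ ?_))⟩
  · refine Set.Finite.subset (Set.finite_Iio (2 * x)) fun p hp => ?_
    obtain ⟨p', _, _, h1, _, _, h2, _⟩ := hp
    exact lt_trans h1 h2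
  · intro m hm
    obtain ⟨h1, h2, h3, h4⟩ := hm
    refine ⟨Nat.nth Nat.Prime (m + 1), Nat.prime_nth_prime _, Nat.prime_nth_prime _,
      Nat.nth_strictMono Nat.infinite_setOf_prime (Nat.lt_succ_self m), ?_, h1, h2, h3,
      h4 0 (Nat.zero_le _), h4 1 le_rfl⟩
    intro r hr1 hr2 hr
    obtain ⟨i, hi1, hi2, _⟩ := between hr hr1 hr2
    omega

/-- three consecutive primes, plain form -/
theorem three_plain {k D N0 J0 : ℕ} {c h : ℕ → ℕ} (hk : 2 ≤ k) (hh : ∀ n, J0 < n → h n = 0)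
    (h1 : N0 < J0 + k) (h2 : J0 + 2 * k ≤ 2 * N0) (hnum : NUMm 2 k N0 J0 c h)
    (htup : ∃ g : Fin k → ℕ, Adm g ∧ (∀ i, Even (g i)) ∧ ∀ i, g i ≤ 2 * D)
    (q a : ℕ) (hq : 0 < q) (hqe : Even q) (ha : a.Coprime q) :
    ∃ c : ℝ, 0 < c ∧ ∃ N : ℕ, ∀ x : ℕ, N ≤ x → c * x / Real.log x ^ k ≤
      (Set.ncard {p : ℕ | ∃ p' p'' : ℕ, p.Prime ∧ p'.Prime ∧ p''.Prime ∧ p < p' ∧ p' < p'' ∧
        (∀ r, p < r → r < p'' → r.Prime → r = p') ∧ x < p ∧ p'' < 2 * x ∧ p'' ≤ p + D * q ∧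
        p ≡ a [MOD q] ∧ p' ≡ a [MOD q] ∧ p'' ≡ a [MOD q]} : ℝ) := by
  obtain ⟨g, hg, hev, hD⟩ := htup
  obtain ⟨c, hc, N, hN⟩ := three_fin hk hh h1 h2 hnum g hg hev hD q a hq hqe ha
  refine ⟨c, hc, N, fun x hx => (hN x hx).trans (Nat.cast_le.2 (ncard_nth ?_ ?_))⟩
  · refine Set.Finite.subset (Set.finite_Iio (2 * x)) fun p hp => ?_
    obtain ⟨p', p'', _, _, _, h1, h2, _, _, h3, _⟩ := hp
    exact lt_trans (lt_trans h1 h2) h3
  · intro m hm
    obtain ⟨h1, h2, h3, h4⟩ := hm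
    have hmono : StrictMono (Nat.nth Nat.Prime) := Nat.nth_strictMono Nat.infinite_setOf_prime
    refine ⟨Nat.nth Nat.Prime (m + 1), Nat.nth Nat.Prime (m + 2), Nat.prime_nth_prime _,
      Nat.prime_nth_prime _, Nat.prime_nth_prime _, hmono (Nat.lt_succ_self m),
      hmono (Nat.lt_succ_self (m + 1)), ?_, h1, h2, h3, h4 0 (Nat.zero_le _), h4 1 (by norm_num),
      h4 2 le_rfl⟩
    intro r hr1 hr2 hr
    obtain ⟨i, hi1, hi2, hi3⟩ := between hr hr1 hr2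
    have : i = 1 := by omega
    rw [hi3, this]

end MPb51559.TP
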