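import Pool.Agent.Work.MP_b51559_nt.TP.Defs
import Pool.Agent.Work.MP_b51559_nt.BG.TP.Many
import Pool.Agent.Work.MP_b51559_nt.BG.Fin

set_option autoImplicit false

/-!
# Block TP, part SV: the sieve
-/

namespace MPb51559.TP

open MPb51559.BG

theorem prf_SV : St_SV := by
  intro m hm k hk h hA P hP F hF hC
  exact sieve_many all_BVE A.bg_PNTW m hm k (by omega) h hA P hP F hF hC

end MPb51559.TP
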