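import Pool.Agent.Work.MP_b51559_nt.BG.Defs

set_option autoImplicit false

/-!
# Block TP: admissible tuples by a bit mask

`M` is the mask of the halves of an even tuple, all bits `≤ L`.  `W` packs, for every odd
`p = 2 i + 3`, a residue class (12 bits) which is missed by the halves.  The check is a few ten
thousand bit tests.
-/

namespace MPb51559.TP

open Finset
open MPb51559.BG

/-- the bit `n` of `M` -/
def tb (M n : ℕ) : Bool := Nat.beq (Nat.mod (Nat.shiftRight M n) 2) 1

/-- no bit of `M` at `a + p j`, `j < n` -/
def okp (M p a n : ℕ) : Bool :=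
  Nat.rec true (fun j ih => cond (tb M (Nat.add a (Nat.mul p j))) false ih) n

/-- all odd moduli `2 i + 3`, `i < n` -/
def okall (M W L n : ℕ) : Bool :=
  Nat.rec true (fun i ih => cond (Nat.blt (Nat.mod (Nat.shiftRight W (Nat.mul 12 i)) 4096)
    (Nat.add (Nat.mul 2 i) 3)) (cond (okp M (Nat.add (Nat.mul 2 i) 3)
    (Nat.mod (Nat.shiftRight W (Nat.mul 12 i)) 4096)
    (Nat.add (Nat.div L (Nat.add (Nat.mul 2 i) 3)) 1)) ih false) false) n

/-- number of bits below `2 ^ d` -/
def popc : ℕ → ℕ → ℕ
  | 0, M => Nat.mod M 2
  | d + 1, M => Nat.add (popc d (Nat.mod M (2 ^ 2 ^ d))) (popc d (Nat.shiftRight M (2 ^ d)))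

theorem tb_iff (M n : ℕ) : tb M n = true ↔ M.testBit n = true := by
  unfold tb
  rw [Nat.testBit_eq_decide_div_mod_eq, decide_eq_true_iff]
  change Nat.beq (((M >>> n) % 2)) 1 = true ↔ _
  rw [Nat.shiftRight_eq_div_pow]
  exact ⟨fun h => Nat.eq_of_beq_eq_true h, fun h => by rw [h]; rfl⟩

theorem okp_spec (M p a : ℕ) : ∀ n, okp M p a n = true → ∀ j < n, M.testBit (a + p * j) = false := by
  intro n
  induction n with
  | zero => intro _ j hj; omega
  | succ n ih =>
    intro h j hj
    have e : okp M p a (n + 1) = cond (tb M (a + p * n)) false (okp M p a n) := rfl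
    rw [e] at h
    cases hb : tb M (a + p * n) with
    | true => rw [hb] at h; exact absurd h (by simp)
    | false =>
      rw [hb] at h
      rcases Nat.lt_succ_iff_lt_or_eq.1 hj with hj | hj
      · exact ih h j hj
      · subst hj
        by_contra hc
        have : tb M (a + p * j) = true := (tb_iff _ _).2 (by simpa using hc)
        rw [this] at hb
        exact absurd hb (by simp)

theorem okall_spec (M W L : ℕ) : ∀ n, okall M W L n = true → ∀ i < n,
    ∃ a < 2 * i + 3, ∀ j < L / (2 * i + 3) + 1, M.testBit (a + (2 * i + 3) * j) = false := by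
  intro n
  induction n with
  | zero => intro _ i hi; omega
  | succ n ih =>
    intro h i hi
    have e : okall M W L (n + 1) = cond (Nat.blt ((W >>> (12 * n)) % 4096) (2 * n + 3))
      (cond (okp M (2 * n + 3) ((W >>> (12 * n)) % 4096)
        (L / (2 * n + 3) + 1)) (okall M W L n) false) false := rfl
    rw [e] at h
    cases hlt : Nat.blt ((W >>> (12 * n)) % 4096) (2 * n + 3) with
    | false => rw [hlt] at h; exact absurd h (by simp)
    | true =>
      rw [hlt] at h
      change cond (okp M (2 * n + 3) ((W >>> (12 * n)) % 4096)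
        (L / (2 * n + 3) + 1)) (okall M W L n) false = true at h
      have hlt' : (W >>> (12 * n)) % 4096 < 2 * n + 3 := Nat.le_of_ble_eq_true hlt
      cases hb : okp M (2 * n + 3) ((W >>> (12 * n)) % 4096) (L / (2 * n + 3) + 1) with
      | false => rw [hb] at h; exact absurd h (by simp)
      | true =>
        rw [hb] at h
        rcases Nat.lt_succ_iff_lt_or_eq.1 hi with hi | hi
        · exact ih h i hi
        · subst hi
          exact ⟨_, hlt', okp_spec _ _ _ _ hb⟩

theorem popc_eq : ∀ (d M : ℕ), popc d M = ∑ i ∈ range (2 ^ d), (M.testBit i).toNat := by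
  intro d
  induction d with
  | zero =>
    intro M
    change M % 2 = _
    simp [Nat.testBit_zero]
    rcases Nat.mod_two_eq_zero_or_one M with h | h <;> simp [h]
  | succ d ih =>
    intro M
    change popc d (M % (2 ^ 2 ^ d)) + popc d (M >>> (2 ^ d)) = _
    rw [ih, ih, pow_succ, mul_two, sum_range_add]
    congr 1
    · apply sum_congr rfl
      intro i hi
      rw [mem_range] at hi
      rw [Nat.testBit_mod_two_pow]
      simp [hi]
    · apply sum_congr rfl
      intro i _
      rw [Nat.testBit_shiftRight]

theorem popc_card (d M : ℕ) : popc d M = ((range (2 ^ d)).filter (fun i => M.testBit i = true)).card := by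
  rw [popc_eq, card_filter]
  apply sum_congr rfl
  intro i _
  cases M.testBit i <;> simp

/-- the tuple of a mask -/
theorem tup_of_mask (k d M W L n : ℕ) (hk : k ≤ 2 * n + 2) (hM : Nat.blt M (2 ^ (L + 1)) = true)
    (hc : Nat.beq (popc d M) k = true) (hok : okall M W L n = true) :
    ∃ g : Fin k → ℕ, Adm g ∧ (∀ i, Even (g i)) ∧ ∀ i, g i ≤ 2 * L := by
  have hM' : M < 2 ^ (L + 1) := by
    have := Nat.le_of_ble_eq_true hM
    omega
  have hc' : popc d M = k := Nat.eq_of_beq_eq_true hc
  rw [popc_card] at hc'
  set S := (range (2 ^ d)).filter (fun i => M.testBit i = true) with hS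
  have hbit : ∀ i, M.testBit (S.orderEmbOfFin hc' i) = true := by
    intro i
    exact (mem_filter.1 (S.orderEmbOfFin_mem hc' i)).2
  have hle : ∀ x, M.testBit x = true → x ≤ L := by
    intro x hx
    by_contra hcon
    have h1 : M < 2 ^ x := lt_of_lt_of_le hM' (Nat.pow_le_pow_right (by norm_num) (by omega))
    rw [Nat.testBit_lt_two_pow h1] at hx
    exact absurd hx (by simp)
  refine ⟨fun i => 2 * S.orderEmbOfFin hc' i, ⟨?_, ?_⟩, ?_, ?_⟩
  · intro i j hij
    have h1 : S.orderEmbOfFin hc' i = S.orderEmbOfFin hc' j := by
      have : 2 * S.orderEmbOfFin hc' i = 2 * S.orderEmbOfFin hc' j := hij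
      omega
    exact (S.orderEmbOfFin hc').injective h1
  · intro p hp
    rcases hp.eq_two_or_odd' with h2 | hodd
    · refine ⟨1, fun i hd => ?_⟩
      subst h2
      change 2 ∣ 1 + 2 * S.orderEmbOfFin hc' i at hd
      omega
    · by_cases hpk : p ≤ k
      · obtain ⟨m, hm⟩ := hodd
        have hp2 := hp.two_le
        obtain ⟨a, hap, ha⟩ := okall_spec M W L n hok (m - 1) (by omega)
        have e3 : 2 * (m - 1) + 3 = p := by omega
        rw [e3] at ha hap
        refine ⟨2 * (p - a), fun i hd => ?_⟩
        have hx := hbit i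
        change p ∣ 2 * (p - a) + 2 * S.orderEmbOfFin hc' i at hd
        set x := S.orderEmbOfFin hc' i
        have hd' : p ∣ 2 * ((p - a) + x) := by
          have e : 2 * (p - a) + 2 * x = 2 * ((p - a) + x) := by ring
          rw [← e]; exact hd
        have hcop : Nat.Coprime p 2 := by
          rw [Nat.coprime_two_right]
          exact ⟨m, hm⟩
        have h4 : p ∣ (p - a) + x := hcop.dvd_of_dvd_mul_left hd'
        obtain ⟨q, hq⟩ := h4
        have hq1 : 1 ≤ q := by
          rcases Nat.eq_zero_or_pos q with h | h
          · subst h; omega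
          · exact h
        obtain ⟨q', rfl⟩ : ∃ q', q = q' + 1 := ⟨q - 1, by omega⟩
        have h6 : p * (q' + 1) = p * q' + p := by ring
        rw [h6] at hq
        have h5 : x = a + p * q' := by omega
        have h7 : q' < L / p + 1 := by
          rw [Nat.lt_succ_iff, Nat.le_div_iff_mul_le (by omega)]
          have := hle x hx
          have h8 : q' * p = p * q' := by ring
          omega
        have h9 := ha q' h7
        rw [← h5, hx] at h9
        exact absurd h9 (by simp)
      · rw [not_le] at hpk
        have hcard : (univ.image (fun i : Fin k => (2 * S.orderEmbOfFin hc' i) % p)).card < p := by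
          refine lt_of_le_of_lt card_image_le ?_
          simpa using hpk
        have hex : ∃ r ∈ range p, r ∉ univ.image (fun i : Fin k => (2 * S.orderEmbOfFin hc' i) % p) := by
          by_contra hcon
          have : range p ⊆ univ.image (fun i : Fin k => (2 * S.orderEmbOfFin hc' i) % p) := by
            intro r hr
            by_contra hr'
            exact hcon ⟨r, hr, hr'⟩
          have := card_le_card this
          rw [card_range] at this
          omega
        obtain ⟨r, hr, hr'⟩ := hex
        rw [mem_range] at hr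
        refine ⟨p - r, fun i hd => hr' ?_⟩
        rw [mem_image]
        refine ⟨i, mem_univ _, ?_⟩
        change p ∣ (p - r) + 2 * S.orderEmbOfFin hc' i at hd
        set y := 2 * S.orderEmbOfFin hc' i
        obtain ⟨q, hq⟩ := hd
        have hq1 : 1 ≤ q := by
          rcases Nat.eq_zero_or_pos q with h | h
          · subst h; omega
          · exact h
        obtain ⟨q', rfl⟩ : ∃ q', q = q' + 1 := ⟨q - 1, by omega⟩
        have h6 : p * (q' + 1) = p * q' + p := by ring
        rw [h6] at hq
        have h5 : y = r + p * q' := by omega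
        rw [h5, Nat.add_mul_mod_self_left, Nat.mod_eq_of_lt hr]
  · intro i
    exact even_two_mul _
  · intro i
    have := hle _ (hbit i)
    change 2 * S.orderEmbOfFin hc' i ≤ 2 * L
    omega

end MPb51559.TP
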