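import Pool.Agent.Work.MP_b51559_nt.TP.Fin5
import Pool.Agent.Work.MP_b51559_nt.TP.TUPd
import Pool.Agent.Work.MP_b51559_nt.BG.T3.N3500

set_option autoImplicit false

/-!
# Three consecutive primes: the theorem for k = 3500
-/

namespace MPb51559.TP

open Finset Filter Topology MeasureTheory
open MPb51559.BG MPb51559.BG.LF

theorem hT_zero (n : ℕ) (hn : 32 * 2 ^ 15 - 1 < n) : BG.T3.rf BG.T3.hT (n / 32) = 0 := by
  refine BG.T3.rf_ge BG.T3.hT (n / 32) ?_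
  have h : BG.T3.rl BG.T3.hT = 2 ^ 15 := by decide +kernel
  rw [h]
  omega

/-- three consecutive primes in a residue class -/
theorem three3500 (q a : ℕ) (hq : 0 < q) (hqe : Even q) (ha : a.Coprime q) :
    ∃ c : ℝ, 0 < c ∧ ∃ N : ℕ, ∀ x : ℕ, N ≤ x → c * x / Real.log x ^ 3500 ≤
      (Set.ncard {p : ℕ | ∃ p' p'' : ℕ, p.Prime ∧ p'.Prime ∧ p''.Prime ∧ p < p' ∧ p' < p'' ∧
        (∀ r, p < r → r < p'' → r.Prime → r = p') ∧ x < p ∧ p'' < 2 * x ∧ p'' ≤ p + 15794 * q ∧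
        p ≡ a [MOD q] ∧ p' ≡ a [MOD q] ∧ p'' ≡ a [MOD q]} : ℝ) :=
  three_plain (k := 3500) (D := 15794) (by norm_num) hT_zero (by norm_num) (by norm_num)
    BG.T3.numT tup3500 q a hq hqe ha

end MPb51559.TP
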